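import Pool.Agent.Q299.Konig.Proof

/-!
# MP_f77465_pr: at the perfect matching time the König graph process never has a unique cover

For every even `n ≥ 2` and EVERY ordering of the pairs of `[n]`, the König graph process reaches a
perfect matching (`T < ∞`), and `G_T` has at least two distinct optimal covers, both of size `n/2`.
So the probability in Q1 is `0` for every even `n ≥ 2`, and Q1 is disproved.
-/

namespace Pool.Agent.Results.MP_f77465_pr.NeverUnique

open Q299.Konig Filter Topology

theorem result :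
    (∀ n : ℕ, 2 ≤ n → Even n → ∀ σ : Order n,
      ∃ t, IsHittingTime σ t ∧ ∃ C D : Set (Fin n), C ≠ D ∧
        C ∈ optCovers (proc σ t) ∧ D ∈ optCovers (proc σ t) ∧ 2 * C.ncard = n ∧ 2 * D.ncard = n) ∧
    (∀ n : ℕ, 2 ≤ n → Even n →
      prob n (fun σ => UniqueAtT σ) = 0 ∧ prob n (fun σ => TwoAtT σ) = 1) ∧
    ¬ Tendsto (fun m : ℕ => prob (2 * m) (fun σ => UniqueAtT σ)) atTop (𝓝 1) := by
  refine ⟨?_, ?_, ?_⟩
  · intro n hn2 hn σ
    obtain ⟨t, ht⟩ := exists_hittingTime σ hn
    exact ⟨t, ht, two_covers σ hn2 ht⟩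
  · intro n hn2 hn
    exact ⟨prob_unique_eq_zero hn2 hn, prob_two_eq_one hn2 hn⟩
  · intro h
    have h0 : Tendsto (fun m : ℕ => prob (2 * m) (fun σ => UniqueAtT σ)) atTop (𝓝 0) := by
      apply tendsto_const_nhds.congr'
      filter_upwards [eventually_ge_atTop 1] with m hm
      exact (prob_unique_eq_zero (by omega) (even_two_mul m)).symm
    exact zero_ne_one (tendsto_nhds_unique h0 h)

end Pool.Agent.Results.MP_f77465_pr.NeverUnique
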